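import Mathlib

/-!
For every prime `p`, a subgroup-closed class of finite groups for which every maximal normal
class-subgroup of every finite `p`-group is a maximal class-subgroup, while a group of order `p ^ 4`
has a class-subgroup lying with index `p` in exactly two class-subgroups.
-/

set_option autoImplicit false

namespace Pool.Agent.Results.MP_b62331_al.EveryPrime

open Subgroup

/-- A property of groups. -/
abbrev GroupClass := ∀ (G : Type) [Group G], Prop

/-- The class is closed under isomorphism. -/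
def IsoClosed (X : GroupClass) : Prop :=
  ∀ (G K : Type) [Group G] [Group K], Nonempty (G ≃* K) → X G → X K

/-- The class is closed under taking subgroups. -/
def SubgroupClosed (X : GroupClass) : Prop :=
  ∀ (G : Type) [Group G] (H : Subgroup G), X G → X H

/-- `H` is a maximal `X`-subgroup of `G`. -/
def IsMaximalSub (X : GroupClass) {G : Type} [Group G] (H : Subgroup G) : Prop :=
  X H ∧ ∀ K : Subgroup G, X K → ¬ H < K

/-- `H` is a maximal normal `X`-subgroup of `G`. -/
def IsMaximalNormalSub (X : GroupClass) {G : Type} [Group G] (H : Subgroup G) : Prop :=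
  H.Normal ∧ X H ∧ ∀ K : Subgroup G, K.Normal → X K → ¬ H < K

/-- The number of `X`-subgroups `K` of `G` with `H < K` and `|K : H| = p`. -/
noncomputable def aCount (X : GroupClass) (p : ℕ) {G : Type} [Group G] (H : Subgroup G) : ℕ :=
  Nat.card {K : Subgroup G // H < K ∧ X K ∧ H.relIndex K = p}

/-- Condition (A) for the group `G`. -/
def CondA (X : GroupClass) (p : ℕ) (G : Type) [Group G] : Prop :=
  ∀ H : Subgroup G, X H → aCount X p H = 0 ∨ aCount X p H ≡ 1 [MOD p]

section general

variable {G : Type} [Group G] {p : ℕ}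

theorem comm_of_card_dvd (hp : p.Prime) (h : Nat.card G ∣ p ^ 2) :
    ∀ a b : G, a * b = b * a := by
  have : Fact p.Prime := ⟨hp⟩
  obtain ⟨k, hk, hc⟩ := (Nat.dvd_prime_pow hp).1 h
  interval_cases k
  · have h1 : Nat.card G = 1 := by simpa using hc
    have hs : Subsingleton G := (Nat.card_eq_one_iff_unique.1 h1).1
    intro a b
    exact Subsingleton.elim _ _
  · have h1 : Nat.card G = p := by simpa using hc
    have : IsCyclic G := isCyclic_of_prime_card h1
    intro a b
    exact (IsCyclic.commGroup (α := G)).mul_comm a b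
  · have hm := IsPGroup.isMulCommutative_of_card_eq_prime_sq (G := G) hc
    exact fun a b => hm.is_comm.comm a b

/-- A subgroup between `H` and `N`, where `|N : H|` is prime. -/
theorem eq_of_between [Finite G] (hp : p.Prime) {H L N : Subgroup G} (h1 : H ≤ L) (h2 : L ≤ N)
    (hc : Nat.card N = p * Nat.card H) (hne : ¬ L ≤ H) : L = N := by
  obtain ⟨k, hk⟩ := Subgroup.card_dvd_of_le h1
  obtain ⟨m, hm⟩ := Subgroup.card_dvd_of_le h2
  have hH0 : 0 < Nat.card H := Nat.card_pos
  have hkm : k * m = p := by
    have : Nat.card H * (k * m) = Nat.card H * p := by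
      rw [← mul_assoc, ← hk, ← hm, hc, mul_comm]
    exact Nat.eq_of_mul_eq_mul_left hH0 this
  rcases (Nat.dvd_prime hp).1 ⟨m, hkm.symm⟩ with h | h
  · exfalso
    apply hne
    have : Nat.card L = Nat.card H := by rw [hk, h, mul_one]
    exact (Subgroup.eq_of_le_of_card_ge h1 this.le).ge
  · have hm1 : m = 1 := by
      have : p * m = p * 1 := by rw [← h, hkm, h, mul_one]
      exact Nat.eq_of_mul_eq_mul_left hp.pos this
    have : Nat.card N = Nat.card L := by rw [hm, hm1, mul_one]
    exact Subgroup.eq_of_le_of_card_ge h2 this.le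

theorem exists_step [Finite G] (hp : p.Prime) (hG : IsPGroup p G) {H M : Subgroup G}
    (hH : H.Normal) (hM : M.Normal) (h : H < M) :
    ∃ N : Subgroup G, N.Normal ∧ H < N ∧ N ≤ M ∧ Nat.card N = p * Nat.card H := by
  have : Fact p.Prime := ⟨hp⟩
  have hf : Function.Surjective (QuotientGroup.mk' H) := QuotientGroup.mk'_surjective H
  have hMQ : (M.map (QuotientGroup.mk' H)).Normal := hM.map _ hf
  have hQ : IsPGroup p (G ⧸ H) := hG.to_quotient H
  have hMne : M.map (QuotientGroup.mk' H) ≠ ⊥ := by
    intro h0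
    rw [Subgroup.map_eq_bot_iff, QuotientGroup.ker_mk'] at h0
    exact absurd (le_antisymm h0 h.le) (ne_of_gt h)
  have hdvd : p ∣ Nat.card (M.map (QuotientGroup.mk' H)) := by
    rcases (hQ.to_subgroup (M.map (QuotientGroup.mk' H))).card_eq_or_dvd with h1 | h1
    · exact absurd ((Subgroup.card_eq_one).1 h1) hMne
    · exact h1
  obtain ⟨b, hb, hb1⟩ := (hQ.of_equiv
    ConjAct.toConjAct).exists_fixed_point_of_prime_dvd_card_of_fixed_point
      (M.map (QuotientGroup.mk' H)) hdvd (a := 1) (by
        intro g
        simp)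
  have hcent : (b : G ⧸ H) ∈ center (G ⧸ H) := by
    rw [Subgroup.mem_center_iff]
    intro g
    have := hb (ConjAct.toConjAct g)
    have h2 := congrArg (Subtype.val) this
    rw [ConjAct.Subgroup.val_conj_smul, ConjAct.toConjAct_smul] at h2
    have h3 : g * (b : G ⧸ H) * g⁻¹ = b := h2
    rw [mul_inv_eq_iff_eq_mul] at h3
    exact h3
  have hbne : (b : G ⧸ H) ≠ 1 := by
    intro h0
    exact hb1 (Subtype.ext h0.symm)
  have hpo : p ∣ orderOf (b : G ⧸ H) := hQ.dvd_orderOf hbne
  set z : G ⧸ H := (b : G ⧸ H) ^ (orderOf (b : G ⧸ H) / p) with hz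
  have hzo : orderOf z = p := orderOf_pow_orderOf_div (orderOf_pos _).ne' hpo
  have hzc : z ∈ center (G ⧸ H) := Subgroup.pow_mem _ hcent _
  have hzM : z ∈ M.map (QuotientGroup.mk' H) := Subgroup.pow_mem _ b.2 _
  have hzn : (zpowers z).Normal := by
    constructor
    intro n hn g
    have : n ∈ center (G ⧸ H) := (Subgroup.zpowers_le.2 hzc) hn
    rw [Subgroup.mem_center_iff] at this
    rw [this g, mul_inv_cancel_right]
    exact hn
  refine ⟨(zpowers z).comap (QuotientGroup.mk' H), hzn.comap _, ?_, ?_, ?_⟩
  · rw [lt_iff_le_not_ge]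
    constructor
    · intro x hx
      rw [Subgroup.mem_comap]
      have : (QuotientGroup.mk' H) x = 1 := by
        rw [QuotientGroup.mk'_apply, QuotientGroup.eq_one_iff]
        exact hx
      rw [this]
      exact one_mem _
    · intro hle
      obtain ⟨g, hg⟩ := hf z
      have : g ∈ (zpowers z).comap (QuotientGroup.mk' H) := by
        rw [Subgroup.mem_comap, hg]
        exact mem_zpowers z
      have h3 := hle this
      have h4 : (QuotientGroup.mk' H) g = 1 := by
        rw [QuotientGroup.mk'_apply, QuotientGroup.eq_one_iff]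
        exact h3
      rw [hg] at h4
      rw [h4, orderOf_one] at hzo
      exact hp.one_lt.ne hzo
  · intro x hx
    rw [Subgroup.mem_comap] at hx
    have h3 : (QuotientGroup.mk' H) x ∈ M.map (QuotientGroup.mk' H) := (Subgroup.zpowers_le.2 hzM) hx
    rw [← Subgroup.mem_comap, Subgroup.comap_map_eq, QuotientGroup.ker_mk', sup_of_le_left h.le] at h3
    exact h3
  · have h1 := Subgroup.card_mul_index ((zpowers z).comap (QuotientGroup.mk' H))
    rw [Subgroup.index_comap_of_surjective _ hf] at h1
    have h2 := Subgroup.card_mul_index (zpowers z)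
    rw [Nat.card_zpowers, hzo] at h2
    have h3 := Subgroup.card_eq_card_quotient_mul_card_subgroup H
    have hi : 0 < (zpowers z).index := Nat.pos_of_ne_zero (Subgroup.index_ne_zero_of_finite)
    have : Nat.card ((zpowers z).comap (QuotientGroup.mk' H)) * (zpowers z).index
        = (p * Nat.card H) * (zpowers z).index := by
      rw [h1, h3, ← h2]
      ring
    exact Nat.eq_of_mul_eq_mul_right hi this

/-- `N` is abelian when it centralises `H` and `|N : H|` is prime. -/
theorem comm_step [Finite G] (hp : p.Prime) {H N : Subgroup G} (hHN : H ≤ N)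
    (hN : N ≤ centralizer (H : Set G)) (hc : Nat.card N = p * Nat.card H) :
    ∀ a b : N, a * b = b * a := by
  intro a b
  have hcom : ∀ x ∈ N, ∀ y ∈ H, x * y = y * x := by
    intro x hx y hy
    exact ((Subgroup.mem_centralizer_iff.1 (hN hx)) y hy).symm
  by_cases ha : (a : G) ∈ H
  · apply Subtype.ext
    exact (hcom b b.2 a ha).symm
  · have h1 : H ≤ N ⊓ centralizer {(a : G)} := by
      intro y hy
      refine Subgroup.mem_inf.2 ⟨hHN hy, ?_⟩
      rw [Subgroup.mem_centralizer_singleton_iff]
      exact (hcom a a.2 y hy).symm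
    have h2 : (a : G) ∈ N ⊓ centralizer {(a : G)} :=
      Subgroup.mem_inf.2 ⟨a.2, by rw [Subgroup.mem_centralizer_singleton_iff]⟩
    have h3 := eq_of_between hp h1 inf_le_left hc (fun hle => ha (hle h2))
    have h4 : (b : G) ∈ N ⊓ centralizer {(a : G)} := by
      rw [h3]
      exact b.2
    have h5 := (Subgroup.mem_centralizer_singleton_iff.1 h4.2)
    apply Subtype.ext
    exact h5.symm

theorem centralizer_large [Finite G] (hp : p.Prime) (hG : IsPGroup p G) {H : Subgroup G}
    (hH : H.Normal) (hc : Nat.card H = p ^ 2) (hbig : p ^ 3 < Nat.card G) :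
    H < centralizer (H : Set G) := by
  have : Fact p.Prime := ⟨hp⟩
  have hcomm := comm_of_card_dvd (G := H) hp (by rw [hc])
  have hle : H ≤ centralizer (H : Set G) := by
    intro x hx
    rw [Subgroup.mem_centralizer_iff]
    intro y hy
    exact congrArg Subtype.val (hcomm ⟨y, hy⟩ ⟨x, hx⟩)
  refine lt_of_le_of_ne hle ?_
  intro heq
  -- it suffices to bound the index of the centraliser
  have hcard := Subgroup.card_mul_index H
  have key : H.index ≤ p := by
    by_cases hz : H ≤ center G
    · have : centralizer (H : Set G) = ⊤ := by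
        rw [eq_top_iff]
        intro x _
        rw [Subgroup.mem_centralizer_iff]
        intro y hy
        exact ((Subgroup.mem_center_iff.1 (hz hy)) x).symm
      rw [heq, this, Subgroup.index_top]
      exact hp.one_lt.le
    · obtain ⟨h, hhH, hhZ⟩ := SetLike.not_le_iff_exists.1 hz
      -- the class of h is small
      have hdvd : p ∣ Nat.card H := by
        rw [hc]
        exact dvd_pow_self p two_ne_zero
      obtain ⟨b, hb, hb1⟩ := (hG.of_equiv
        ConjAct.toConjAct).exists_fixed_point_of_prime_dvd_card_of_fixed_point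
          H hdvd (a := 1) (by
            intro g
            simp)
      have hcent : (b : G) ∈ center G := by
        rw [Subgroup.mem_center_iff]
        intro g
        have := hb (ConjAct.toConjAct g)
        have h2 := congrArg (Subtype.val) this
        rw [ConjAct.Subgroup.val_conj_smul, ConjAct.toConjAct_smul] at h2
        have h3 : g * (b : G) * g⁻¹ = b := h2
        rw [mul_inv_eq_iff_eq_mul] at h3
        exact h3
      have hZ0 : ∃ m, m ≤ 2 ∧ Nat.card (H ⊓ center G : Subgroup G) = p ^ m ∧ 1 ≤ m := by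
        have hd : Nat.card (H ⊓ center G : Subgroup G) ∣ p ^ 2 := by
          rw [← hc]
          exact Subgroup.card_dvd_of_le inf_le_left
        obtain ⟨m, hm, hcm⟩ := (Nat.dvd_prime_pow hp).1 hd
        refine ⟨m, hm, hcm, ?_⟩
        by_contra hlt
        have hm0 : m = 0 := by omega
        rw [hm0, pow_zero, Subgroup.card_eq_one] at hcm
        have : (b : G) ∈ H ⊓ center G := ⟨b.2, hcent⟩
        rw [hcm, Subgroup.mem_bot] at this
        exact hb1 (Subtype.ext this.symm)
      obtain ⟨m, hm2, hcm, hm1⟩ := hZ0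
      -- centraliser of h centralises H
      have hCh : centralizer {h} ≤ centralizer (H : Set G) := by
        intro g hg
        rw [Subgroup.mem_centralizer_singleton_iff] at hg
        have hLd : Nat.card (H ⊓ centralizer {g} : Subgroup G) ∣ p ^ 2 := by
          rw [← hc]
          exact Subgroup.card_dvd_of_le inf_le_left
        obtain ⟨l, hl, hcl⟩ := (Nat.dvd_prime_pow hp).1 hLd
        have hle1 : H ⊓ center G ≤ H ⊓ centralizer {g} := by
          intro x hx
          refine Subgroup.mem_inf.2 ⟨hx.1, ?_⟩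
          rw [Subgroup.mem_centralizer_singleton_iff]
          exact ((Subgroup.mem_center_iff.1 hx.2) g).symm
        have hlt : Nat.card (H ⊓ center G : Subgroup G) <
            Nat.card (H ⊓ centralizer {g} : Subgroup G) := by
          refine lt_of_le_of_ne (Subgroup.card_le_of_le hle1) ?_
          intro he
          have := Subgroup.eq_of_le_of_card_ge hle1 he.ge
          have h5 : h ∈ H ⊓ centralizer {g} := by
            refine Subgroup.mem_inf.2 ⟨hhH, ?_⟩
            rw [Subgroup.mem_centralizer_singleton_iff]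
            exact hg.symm
          rw [← this] at h5
          exact hhZ h5.2
        rw [hcm, hcl] at hlt
        have hml : m < l := (Nat.pow_lt_pow_iff_right hp.one_lt).1 hlt
        have hl2 : l = 2 := by omega
        have hLH : H ⊓ centralizer {g} = H := by
          apply Subgroup.eq_of_le_of_card_ge inf_le_left
          rw [hcl, hl2, hc]
        rw [Subgroup.mem_centralizer_iff]
        intro y hy
        have hy2 : y ∈ H ⊓ centralizer {g} := by
          rw [hLH]
          exact hy
        exact (Subgroup.mem_centralizer_singleton_iff.1 hy2.2)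
      -- index of centraliser of h
      have hidx : (centralizer {h} : Subgroup G).index ≤ p := by
        obtain ⟨n, hn⟩ := (hG.of_equiv ConjAct.toConjAct).card_orbit (α := H) (⟨h, hhH⟩ : H)
        have hstab : (centralizer {h} : Subgroup G).index =
            Nat.card (MulAction.orbit (ConjAct G) (⟨h, hhH⟩ : H)) := by
          have h9 := MulAction.index_stabilizer (G := ConjAct G) (x := (⟨h, hhH⟩ : H))
          rw [← Nat.card_coe_set_eq] at h9
          rw [← h9]
          have : (centralizer {h} : Subgroup G) =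
              (MulAction.stabilizer (ConjAct G) (⟨h, hhH⟩ : H)).comap
                (ConjAct.toConjAct (G := G)).toMonoidHom := by
            ext g
            rw [Subgroup.mem_centralizer_singleton_iff, Subgroup.mem_comap,
              MulAction.mem_stabilizer_iff]
            constructor
            · intro hg
              apply Subtype.ext
              rw [ConjAct.Subgroup.val_conj_smul]
              change ConjAct.toConjAct g • h = h
              rw [ConjAct.toConjAct_smul, hg]
              group
            · intro hg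
              have h2 := congrArg Subtype.val hg
              rw [ConjAct.Subgroup.val_conj_smul] at h2
              change ConjAct.toConjAct g • h = h at h2
              rw [ConjAct.toConjAct_smul, mul_inv_eq_iff_eq_mul] at h2
              exact h2
          rw [this]
          exact Subgroup.index_comap_of_surjective _ (ConjAct.toConjAct (G := G)).surjective
        rw [hstab, hn]
        have hlt : p ^ n < p ^ 2 := by
          rw [← hn, ← hc]
          have hne : (1 : H) ∉ MulAction.orbit (ConjAct G) (⟨h, hhH⟩ : H) := by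
            rintro ⟨g, hg⟩
            have h6 : (⟨h, hhH⟩ : H) = 1 := by
              have : g⁻¹ • (g • (⟨h, hhH⟩ : H)) = g⁻¹ • (1 : H) := by
                rw [show g • (⟨h, hhH⟩ : H) = 1 from hg]
              rw [inv_smul_smul, smul_one] at this
              exact this
            apply hhZ
            have h7 : h = 1 := congrArg Subtype.val h6
            rw [h7]
            exact one_mem _
          have hss : MulAction.orbit (ConjAct G) (⟨h, hhH⟩ : H) ⊂ Set.univ := by
            rw [Set.ssubset_univ_iff]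
            intro hu
            rw [hu] at hne
            exact hne (Set.mem_univ _)
          have := Set.ncard_lt_ncard hss Set.finite_univ
          rwa [Set.ncard_univ] at this
        have hn1 : n < 2 := (Nat.pow_lt_pow_iff_right hp.one_lt).1 hlt
        calc p ^ n ≤ p ^ 1 := Nat.pow_le_pow_right hp.pos (by omega)
          _ = p := pow_one p
      calc H.index = (centralizer (H : Set G)).index := by rw [← heq]
        _ ≤ (centralizer {h} : Subgroup G).index :=
            Nat.le_of_dvd (Nat.pos_of_ne_zero (Subgroup.index_ne_zero_of_finite))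
              (Subgroup.index_dvd_of_le hCh)
        _ ≤ p := hidx
  rw [hc] at hcard
  have : Nat.card G ≤ p ^ 2 * p := by
    rw [← hcard]
    exact Nat.mul_le_mul_left _ key
  have h3 : p ^ 2 * p = p ^ 3 := by ring
  omega

end general

/-- The class: order dividing `p ^ 3`, and abelian or generated by elements of order dividing
`p`. -/
def X (p : ℕ) : GroupClass := fun G _ =>
  Nat.card G ∣ p ^ 3 ∧ ((∀ a b : G, a * b = b * a) ∨ closure {x : G | x ^ p = 1} = ⊤)

theorem X_iso (p : ℕ) : IsoClosed (X p) := by
  rintro G K _ _ ⟨e⟩ ⟨h1, h2⟩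
  refine ⟨by rwa [← Nat.card_congr e.toEquiv], ?_⟩
  rcases h2 with h2 | h2
  · left
    intro a b
    apply e.symm.injective
    rw [map_mul, map_mul, h2]
  · right
    have h3 : (closure {x : G | x ^ p = 1}).map e.toMonoidHom = ⊤ := by
      rw [h2]
      exact Subgroup.map_top_of_surjective _ e.surjective
    rw [← h3, MonoidHom.map_closure]
    congr 1
    ext y
    constructor
    · intro hy
      refine ⟨e.symm y, ?_, by simp⟩
      show (e.symm y) ^ p = 1
      rw [← map_pow, show y ^ p = 1 from hy, map_one]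
    · rintro ⟨x, hx, rfl⟩
      show (e x) ^ p = 1
      rw [← map_pow, show x ^ p = 1 from hx, map_one]

theorem X_finite {p : ℕ} (hp : p.Prime) {G : Type} [Group G] (h : X p G) : Finite G := by
  apply Nat.finite_of_card_ne_zero
  intro h0
  have := h.1
  rw [h0, zero_dvd_iff] at this
  exact (pow_pos hp.pos 3).ne' this

theorem X_sub {p : ℕ} (hp : p.Prime) : SubgroupClosed (X p) := by
  intro G _ H hG
  have := X_finite hp hG
  by_cases hH : H = ⊤
  · subst hH
    exact X_iso p G _ ⟨Subgroup.topEquiv.symm⟩ hG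
  · obtain ⟨j, hj, hcj⟩ := (Nat.dvd_prime_pow hp).1 hG.1
    have hd : Nat.card H ∣ p ^ j := by
      rw [← hcj]
      exact Subgroup.card_subgroup_dvd_card H
    obtain ⟨i, hi, hci⟩ := (Nat.dvd_prime_pow hp).1 hd
    have hne : i ≠ j := by
      intro hij
      apply hH
      apply Subgroup.eq_top_of_card_eq
      rw [hci, hcj, hij]
    refine ⟨?_, Or.inl ?_⟩
    · rw [hci]
      exact pow_dvd_pow p (by omega)
    · apply comm_of_card_dvd hp
      rw [hci]
      exact pow_dvd_pow p (by omega)

theorem X_maxnormal {p : ℕ} (hp : p.Prime) (G : Type) [Group G] (hfin : Finite G)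
    (hG : IsPGroup p G) (H : Subgroup G) (hmax : IsMaximalNormalSub (X p) H) :
    IsMaximalSub (X p) H := by
  obtain ⟨hn, hX, hm⟩ := hmax
  refine ⟨hX, ?_⟩
  intro K hK hlt
  obtain ⟨k, hk, hck⟩ := (Nat.dvd_prime_pow hp).1 hK.1
  have hd : Nat.card H ∣ p ^ k := by
    rw [← hck]
    exact Subgroup.card_dvd_of_le hlt.le
  obtain ⟨i, hi, hci⟩ := (Nat.dvd_prime_pow hp).1 hd
  have hne : i ≠ k := by
    intro hik
    have : H = K := Subgroup.eq_of_le_of_card_ge hlt.le (by rw [hci, hck, hik])
    exact hlt.ne this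
  have htop : H < ⊤ := lt_of_lt_of_le hlt le_top
  by_cases hi2 : i = 2
  · have hk3 : k = 3 := by omega
    by_cases hGc : Nat.card G = p ^ 3
    · have hKt : K = ⊤ := by
        apply Subgroup.eq_top_of_card_eq
        rw [hck, hk3, hGc]
      subst hKt
      exact hm ⊤ inferInstance hK hlt
    · have hbig : p ^ 3 < Nat.card G := by
        have h1 : Nat.card K ≤ Nat.card G := Subgroup.card_le_card_group K
        rw [hck, hk3] at h1
        exact lt_of_le_of_ne h1 (Ne.symm hGc)
      have hC := centralizer_large hp hG hn (by rw [hci, hi2]) hbig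
      obtain ⟨N, hNn, hHN, hNC, hNc⟩ := exists_step hp hG hn (M := centralizer (H : Set G))
        (by have := hn; infer_instance) hC
      refine hm N hNn ⟨?_, Or.inl ?_⟩ hHN
      · rw [hNc, hci, hi2]
        exact dvd_of_eq (by ring)
      · exact comm_step hp hHN.le hNC hNc
  · obtain ⟨N, hNn, hHN, _, hNc⟩ := exists_step hp hG hn (M := ⊤) inferInstance htop
    refine hm N hNn ⟨?_, Or.inl ?_⟩ hHN
    · rw [hNc, hci, ← pow_succ']
      exact pow_dvd_pow p (by omega)
    · apply comm_of_card_dvd hp
      rw [hNc, hci, ← pow_succ']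
      exact pow_dvd_pow p (by omega)

/-! ### The group of order `p ^ 4` -/

/-- Triples. -/
@[ext] structure E (p : ℕ) where
  a : ZMod p
  b : ZMod (p ^ 2)
  t : ZMod p

/-- Multiplication by `p`, from `ZMod p` to `ZMod (p ^ 2)`. -/
def io (p : ℕ) : ZMod p →+ ZMod (p ^ 2) :=
  ZMod.lift p ⟨(AddMonoidHom.mulLeft (p : ZMod (p ^ 2))).comp (Int.castAddHom _), by
    have : ((p : ℕ) : ZMod (p ^ 2)) * (p : ZMod (p ^ 2)) = 0 := by
      rw [← Nat.cast_mul, ← sq]
      exact ZMod.natCast_self _
    simpa using this⟩

theorem io_cast (p : ℕ) (k : ℤ) : io p (k : ZMod p) = (p : ZMod (p ^ 2)) * (k : ZMod (p ^ 2)) := by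
  rw [io, ZMod.lift_coe]
  simp

/-- Reduction modulo `p`. -/
def pr (p : ℕ) : ZMod (p ^ 2) →+* ZMod p := ZMod.castHom (dvd_pow_self p two_ne_zero) (ZMod p)

theorem pr_io (p : ℕ) (u : ZMod p) : pr p (io p u) = 0 := by
  obtain ⟨k, rfl⟩ := ZMod.intCast_surjective u
  rw [io_cast, map_mul, map_natCast]
  simp

theorem io_pr (p : ℕ) (v : ZMod (p ^ 2)) : io p (pr p v) = (p : ZMod (p ^ 2)) * v := by
  obtain ⟨k, rfl⟩ := ZMod.intCast_surjective v
  rw [map_intCast, io_cast]

theorem io_inj {p : ℕ} (hp : p.Prime) (u : ZMod p) (h : io p u = 0) : u = 0 := by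
  obtain ⟨k, rfl⟩ := ZMod.intCast_surjective u
  rw [io_cast] at h
  have h2 : (((p : ℤ) * k : ℤ) : ZMod (p ^ 2)) = 0 := by
    push_cast
    exact h
  rw [ZMod.intCast_zmod_eq_zero_iff_dvd] at h2
  rw [ZMod.intCast_zmod_eq_zero_iff_dvd]
  push_cast at h2
  rw [sq] at h2
  exact (mul_dvd_mul_iff_left (by exact_mod_cast hp.ne_zero)).1 h2

/-- An element killed by the reduction is in the image. -/
theorem exists_io {p : ℕ} (v : ZMod (p ^ 2)) (h : pr p v = 0) : ∃ u, v = io p u := by
  obtain ⟨k, rfl⟩ := ZMod.intCast_surjective v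
  rw [map_intCast, ZMod.intCast_zmod_eq_zero_iff_dvd] at h
  obtain ⟨m, rfl⟩ := h
  refine ⟨(m : ZMod p), ?_⟩
  rw [io_cast]
  push_cast
  rfl

namespace E

variable {p : ℕ}

instance : Mul (E p) := ⟨fun x y => ⟨x.a + y.a, x.b + y.b + io p (x.t * y.a), x.t + y.t⟩⟩
instance : One (E p) := ⟨⟨0, 0, 0⟩⟩
instance : Inv (E p) := ⟨fun x => ⟨-x.a, -x.b + io p (x.t * x.a), -x.t⟩⟩

theorem mul_def (x y : E p) : x * y = ⟨x.a + y.a, x.b + y.b + io p (x.t * y.a), x.t + y.t⟩ := rfl
theorem one_def : (1 : E p) = ⟨0, 0, 0⟩ := rfl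
theorem inv_def (x : E p) : x⁻¹ = ⟨-x.a, -x.b + io p (x.t * x.a), -x.t⟩ := rfl

instance : Group (E p) where
  mul_assoc x y z := by
    ext
    · simp [mul_def, add_assoc]
    · simp only [mul_def, mul_add, add_mul, map_add]
      abel
    · simp [mul_def, add_assoc]
  one_mul x := by
    ext <;> simp [mul_def, one_def]
  mul_one x := by
    ext <;> simp [mul_def, one_def]
  inv_mul_cancel x := by
    ext <;> simp [mul_def, one_def, inv_def]

/-- The triples as a product. -/
def equiv : E p ≃ ZMod p × ZMod (p ^ 2) × ZMod p where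
  toFun x := (x.a, x.b, x.t)
  invFun y := ⟨y.1, y.2.1, y.2.2⟩
  left_inv _ := rfl
  right_inv _ := rfl

theorem card : Nat.card (E p) = p ^ 4 := by
  rw [Nat.card_congr equiv, Nat.card_prod, Nat.card_prod, Nat.card_zmod, Nat.card_zmod]
  ring

theorem pow_def (x : E p) (n : ℕ) :
    x ^ n = ⟨n * x.a, n * x.b + io p ((n.choose 2 : ℕ) * (x.t * x.a)), n * x.t⟩ := by
  induction n with
  | zero => ext <;> simp [one_def]
  | succ n ih =>
    rw [pow_succ, ih, mul_def]
    ext
    · push_cast
      ring
    · have h : ((n + 1).choose 2 : ℕ) = n + n.choose 2 := by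
        rw [Nat.choose_succ_succ' n 1, Nat.choose_one_right]
      simp only [h]
      have h2 : (((n + n.choose 2 : ℕ) : ZMod p)) * (x.t * x.a) =
          ((n.choose 2 : ℕ) : ZMod p) * (x.t * x.a) + (n : ZMod p) * x.t * x.a := by
        push_cast
        ring
      rw [h2, map_add]
      push_cast
      ring
    · push_cast
      ring

/-- The homomorphism with kernel `K2`. -/
def f2 : E p →* Multiplicative (ZMod p) where
  toFun x := Multiplicative.ofAdd (pr p x.b)
  map_one' := by simp [one_def]
  map_mul' x y := by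
    rw [mul_def, ← ofAdd_add]
    congr 1
    simp [pr_io]

/-- The homomorphism with kernel `K1`. -/
def f1 (s : ZMod p) : E p →* Multiplicative (ZMod p) where
  toFun x := Multiplicative.ofAdd (x.t - s * x.a)
  map_one' := by simp [one_def]
  map_mul' x y := by
    rw [mul_def, ← ofAdd_add]
    congr 1
    ring

/-- The subgroup with `t = s a`. -/
def K1 (s : ZMod p) : Subgroup (E p) := (f1 s).ker
/-- The subgroup with `b` divisible by `p`. -/
def K2 : Subgroup (E p) := (f2 (p := p)).ker
/-- The intersection. -/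
def H (s : ZMod p) : Subgroup (E p) := K1 s ⊓ K2

theorem mem_K1 (s : ZMod p) (x : E p) : x ∈ K1 s ↔ x.t = s * x.a := by
  rw [K1, MonoidHom.mem_ker]
  change Multiplicative.ofAdd (x.t - s * x.a) = 1 ↔ _
  rw [ofAdd_eq_one, sub_eq_zero]

theorem mem_K2 (x : E p) : x ∈ K2 ↔ pr p x.b = 0 := by
  rw [K2, MonoidHom.mem_ker]
  change Multiplicative.ofAdd (pr p x.b) = 1 ↔ _
  rw [ofAdd_eq_one]

theorem index_K1 (s : ZMod p) : (K1 s).index = p := by
  rw [K1, Subgroup.index_ker, MonoidHom.range_eq_top.2, Subgroup.card_top]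
  · exact Nat.card_zmod p
  · intro y
    refine ⟨⟨0, 0, Multiplicative.toAdd y⟩, ?_⟩
    change Multiplicative.ofAdd (_ - s * 0) = y
    simp

theorem index_K2 : (K2 (p := p)).index = p := by
  rw [K2, Subgroup.index_ker, MonoidHom.range_eq_top.2, Subgroup.card_top]
  · exact Nat.card_zmod p
  · intro y
    obtain ⟨k, hk⟩ := ZMod.intCast_surjective (Multiplicative.toAdd y)
    refine ⟨⟨0, (k : ZMod (p ^ 2)), 0⟩, ?_⟩
    change Multiplicative.ofAdd (pr p (k : ZMod (p ^ 2))) = y
    rw [map_intCast, hk]
    rfl

theorem relIndex_H_K1 (s : ZMod p) : (H s).relIndex (K1 s) = p := by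
  rw [H, Subgroup.inf_relIndex_left, K2, Subgroup.relIndex_ker]
  have : (K1 s).map (f2 (p := p)) = ⊤ := by
    rw [eq_top_iff]
    intro y _
    obtain ⟨k, hk⟩ := ZMod.intCast_surjective (Multiplicative.toAdd y)
    refine ⟨⟨0, (k : ZMod (p ^ 2)), 0⟩, ?_, ?_⟩
    · rw [SetLike.mem_coe, mem_K1]
      simp
    · change Multiplicative.ofAdd (pr p (k : ZMod (p ^ 2))) = y
      rw [map_intCast, hk]
      rfl
  rw [this, Subgroup.card_top]
  exact Nat.card_zmod p

theorem relIndex_H_K2 (s : ZMod p) : (H s).relIndex K2 = p := by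
  rw [H, Subgroup.inf_relIndex_right, K1, Subgroup.relIndex_ker]
  have : (K2 (p := p)).map (f1 s) = ⊤ := by
    rw [eq_top_iff]
    intro y _
    refine ⟨⟨0, 0, Multiplicative.toAdd y⟩, ?_, ?_⟩
    · rw [SetLike.mem_coe, mem_K2]
      simp
    · change Multiplicative.ofAdd (_ - s * 0) = y
      simp
  rw [this, Subgroup.card_top]
  exact Nat.card_zmod p

theorem card_of_index (hp : p.Prime) {K : Subgroup (E p)} (h : K.index = p) :
    Nat.card K = p ^ 3 := by
  have h1 := Subgroup.card_mul_index K
  rw [h, card] at h1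
  have : Nat.card K * p = p ^ 3 * p := by
    rw [h1]
    ring
  exact Nat.eq_of_mul_eq_mul_right hp.pos this

theorem H_index (s : ZMod p) : (H s).index = p * p := by
  rw [← Subgroup.relIndex_mul_index (H := H s) (K := K1 s) inf_le_left, relIndex_H_K1, index_K1]

theorem X_K1 (hp : p.Prime) (s : ZMod p) : X p (K1 s) := by
  refine ⟨?_, Or.inl ?_⟩
  · rw [card_of_index hp (index_K1 s)]
  · rintro ⟨x, hx⟩ ⟨y, hy⟩
    apply Subtype.ext
    rw [mem_K1] at hx hy
    change x * y = y * x
    rw [mul_def, mul_def]
    ext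
    · simp [add_comm]
    · have : x.t * y.a = y.t * x.a := by
        rw [hx, hy]
        ring
      simp only [this]
      ring
    · simp [add_comm]

theorem X_K2 (hp : p.Prime) : X p (K2 (p := p)) := by
  refine ⟨?_, Or.inr ?_⟩
  · rw [card_of_index hp index_K2]
  · rw [eq_top_iff]
    rintro ⟨x, hx⟩ _
    have hx' := (mem_K2 x).1 hx
    obtain ⟨u, hu⟩ := exists_io x.b hx'
    have h1 : (⟨0, io p u, 0⟩ : E p) ∈ K2 (p := p) := (mem_K2 _).2 (pr_io p u)
    have h2 : (⟨x.a, 0, 0⟩ : E p) ∈ K2 (p := p) := (mem_K2 _).2 (map_zero _)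
    have h3 : (⟨0, 0, x.t⟩ : E p) ∈ K2 (p := p) := (mem_K2 _).2 (map_zero _)
    have hprod : (⟨x, hx⟩ : K2 (p := p)) = ⟨_, h1⟩ * ⟨_, h2⟩ * ⟨_, h3⟩ := by
      apply Subtype.ext
      change x = (⟨0, io p u, 0⟩ : E p) * ⟨x.a, 0, 0⟩ * ⟨0, 0, x.t⟩
      simp only [mul_def]
      ext
      · simp
      · simp [hu]
      · simp
    rw [hprod]
    refine mul_mem (mul_mem ?_ ?_) ?_
    · apply Subgroup.subset_closure
      apply Subtype.ext
      change (⟨0, io p u, 0⟩ : E p) ^ p = 1
      rw [pow_def, one_def]
      ext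
      · simp
      · have : (p : ZMod (p ^ 2)) * io p u = 0 := by
          rw [← io_pr, pr_io, map_zero]
        simp [this]
      · simp
    · apply Subgroup.subset_closure
      apply Subtype.ext
      change (⟨x.a, 0, 0⟩ : E p) ^ p = 1
      rw [pow_def, one_def]
      ext <;> simp
    · apply Subgroup.subset_closure
      apply Subtype.ext
      change (⟨0, 0, x.t⟩ : E p) ^ p = 1
      rw [pow_def, one_def]
      ext <;> simp

theorem K1_ne_K2 (hp : p.Prime) (s : ZMod p) : K1 s ≠ K2 := by
  intro h
  have : Fact p.Prime := ⟨hp⟩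
  have h1 : (⟨0, 0, 1⟩ : E p) ∈ K2 (p := p) := (mem_K2 _).2 (map_zero _)
  rw [← h, mem_K1] at h1
  simp at h1

/-- The value of the parameter. -/
def sv (p : ℕ) : ZMod p := if p = 2 then 1 else 0

theorem mem_or (hp : p.Prime) (x : E p) (hx : x ^ p = 1) : x ∈ K1 (sv p) ∨ x ∈ K2 (p := p) := by
  have hb := congrArg E.b hx
  rw [pow_def, one_def] at hb
  change (p : ZMod (p ^ 2)) * x.b + io p ((p.choose 2 : ℕ) * (x.t * x.a)) = 0 at hb
  rw [← io_pr, ← map_add] at hb
  have hb2 := io_inj hp _ hb
  by_cases h2 : p = 2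
  · subst h2
    have hc : ((Nat.choose 2 2 : ℕ) : ZMod 2) = 1 := by simp
    rw [hc, one_mul] at hb2
    by_cases hta : x.t * x.a = 0
    · right
      rw [mem_K2]
      rw [hta, add_zero] at hb2
      exact hb2
    · left
      rw [mem_K1, sv, if_pos rfl]
      revert hta
      generalize x.t = t
      generalize x.a = a
      revert t a
      decide
  · right
    have hd : p ∣ p.choose 2 := hp.dvd_choose_self two_ne_zero (by
      have := hp.two_le
      omega)
    have hc : ((p.choose 2 : ℕ) : ZMod p) = 0 := (ZMod.natCast_eq_zero_iff _ _).2 hd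
    rw [hc, zero_mul, add_zero] at hb2
    exact (mem_K2 x).2 hb2

theorem eq_of_le_index (hp : p.Prime) {K L : Subgroup (E p)} (h : K ≤ L) (hK : K.index = p)
    (hL : L.index = p) : K = L := by
  have h1 := Subgroup.relIndex_mul_index h
  rw [hK, hL] at h1
  have h2 : K.relIndex L = 1 := by
    have : K.relIndex L * p = 1 * p := by rw [h1, one_mul]
    exact Nat.eq_of_mul_eq_mul_right hp.pos this
  rw [Subgroup.relIndex_eq_one] at h2
  exact le_antisymm h h2

theorem eq_or_of_le (hp : p.Prime) (K : Subgroup (E p)) (hHK : H (sv p) ≤ K) (hX : X p K)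
    (hr : (H (sv p)).relIndex K = p) : K = K1 (sv p) ∨ K = K2 (p := p) := by
  have : Fact p.Prime := ⟨hp⟩
  have hfin : Finite (E p) := Nat.finite_of_card_ne_zero (by
    rw [card]
    exact (pow_pos hp.pos 4).ne')
  have hKi : K.index = p := by
    have h1 := Subgroup.relIndex_mul_index hHK
    rw [hr, H_index] at h1
    exact Nat.eq_of_mul_eq_mul_left hp.pos h1
  rcases hX.2 with hab | hcl
  · left
    apply eq_of_le_index hp _ hKi (index_K1 _)
    intro x hx
    have hh : (⟨1, 0, sv p⟩ : E p) ∈ H (sv p) := by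
      refine Subgroup.mem_inf.2 ⟨?_, ?_⟩
      · rw [mem_K1]
        simp
      · rw [mem_K2]
        exact map_zero _
    have h1 := congrArg Subtype.val (hab ⟨x, hx⟩ ⟨_, hHK hh⟩)
    change x * (⟨1, 0, sv p⟩ : E p) = (⟨1, 0, sv p⟩ : E p) * x at h1
    have h2 := congrArg E.b h1
    rw [mul_def, mul_def] at h2
    simp only [add_zero, zero_add, mul_one] at h2
    have h3 : io p (x.t - sv p * x.a) = 0 := by
      rw [map_sub, sub_eq_zero]
      exact add_left_cancel h2
    rw [mem_K1]
    exact sub_eq_zero.1 (io_inj hp _ h3)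
  · by_cases hall : ∀ x ∈ K, x ^ p = 1 → x ∈ K2 (p := p)
    · right
      apply eq_of_le_index hp _ hKi index_K2
      have h1 : (⊤ : Subgroup K) ≤ (K2 (p := p)).subgroupOf K := by
        rw [← hcl, Subgroup.closure_le]
        intro x hx
        rw [SetLike.mem_coe, Subgroup.mem_subgroupOf]
        exact hall x x.2 (congrArg Subtype.val (show x ^ p = 1 from hx))
      intro x hx
      exact Subgroup.mem_subgroupOf.1 (h1 (Subgroup.mem_top (⟨x, hx⟩ : K)))
    · left
      push Not at hall
      obtain ⟨x, hxK, hxp, hx2⟩ := hall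
      have hx1 : x ∈ K1 (sv p) := (mem_or hp x hxp).resolve_right hx2
      have hcard : Nat.card (K1 (sv p)) = p * Nat.card (H (sv p)) := by
        rw [card_of_index hp (index_K1 _)]
        have h1 := Subgroup.card_mul_index (H (sv p))
        rw [H_index, card] at h1
        have : p ^ 3 * p = p * Nat.card (H (sv p)) * p := by
          calc p ^ 3 * p = p ^ 4 := by ring
            _ = _ := h1.symm
            _ = _ := by ring
        exact Nat.eq_of_mul_eq_mul_right hp.pos this
      have h3 := eq_of_between hp (H := H (sv p)) (L := K ⊓ K1 (sv p)) (N := K1 (sv p))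
        (le_inf hHK inf_le_left) inf_le_right hcard (fun hle => hx2
          (Subgroup.mem_inf.1 (hle (Subgroup.mem_inf.2 ⟨hxK, hx1⟩))).2)
      have h4 : K1 (sv p) ≤ K := by
        rw [← h3]
        exact inf_le_left
      exact (eq_of_le_index hp h4 (index_K1 _) hKi).symm

theorem count (hp : p.Prime) : aCount (X p) p (H (sv p)) = 2 := by
  have hset : {K : Subgroup (E p) | H (sv p) < K ∧ X p K ∧ (H (sv p)).relIndex K = p} =
      {K1 (sv p), K2} := by
    have hlt : ∀ K : Subgroup (E p), H (sv p) ≤ K → (H (sv p)).relIndex K = p → H (sv p) < K := by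
      intro K h1 h2
      refine lt_of_le_of_ne h1 ?_
      intro he
      rw [← he, Subgroup.relIndex_self] at h2
      exact hp.one_lt.ne h2
    ext K
    simp only [Set.mem_ofPred_eq, Set.mem_insert_iff, Set.mem_singleton_iff]
    constructor
    · rintro ⟨h1, h2, h3⟩
      exact eq_or_of_le hp K h1.le h2 h3
    · rintro (rfl | rfl)
      · exact ⟨hlt _ inf_le_left (relIndex_H_K1 _), X_K1 hp _, relIndex_H_K1 _⟩
      · exact ⟨hlt _ inf_le_right (relIndex_H_K2 _), X_K2 hp, relIndex_H_K2 _⟩
  change Nat.card {K : Subgroup (E p) | H (sv p) < K ∧ X p K ∧ (H (sv p)).relIndex K = p} = 2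
  rw [hset, Nat.card_coe_set_eq, Set.ncard_pair (K1_ne_K2 hp _)]

end E

/-- For every prime `p` there is an isomorphism-closed and subgroup-closed class `X` of finite
groups such that every maximal normal `X`-subgroup of every finite `p`-group `G` is a maximal
`X`-subgroup of `G`, but condition (A) fails for `X` in some finite `p`-group. -/
theorem result (p : ℕ) (hp : p.Prime) :
    ∃ X : GroupClass, IsoClosed X ∧ SubgroupClosed X ∧
      (∀ (G : Type) [Group G], X G → Finite G) ∧
      (∀ (G : Type) [Group G], Finite G → IsPGroup p G →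
        ∀ H : Subgroup G, IsMaximalNormalSub X H → IsMaximalSub X H) ∧
      ∃ (G : Type) (_ : Group G), Finite G ∧ IsPGroup p G ∧ ¬ CondA X p G := by
  refine ⟨X p, X_iso p, X_sub hp, fun G _ h => X_finite hp h, X_maxnormal hp, E p, inferInstance,
    ?_, ?_, ?_⟩
  · exact Nat.finite_of_card_ne_zero (by
      rw [E.card]
      exact (pow_pos hp.pos 4).ne')
  · exact IsPGroup.of_card E.card
  · intro h
    have h1 := h (E.H (E.sv p)) (X_sub hp _ ((E.H (E.sv p)).subgroupOf (E.K1 (E.sv p)))
      (E.X_K1 hp _) |> X_iso p _ _ ⟨Subgroup.subgroupOfEquivOfLe inf_le_left⟩)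
    rw [E.count hp] at h1
    rcases h1 with h1 | h1
    · exact absurd h1 (by norm_num)
    · rw [Nat.ModEq.comm, Nat.modEq_iff_dvd' (by norm_num)] at h1
      exact hp.one_lt.ne' (Nat.dvd_one.1 h1)

end Pool.Agent.Results.MP_b62331_al.EveryPrime
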